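import Pool.Agent.PLY.S.Main
import Pool.Agent.PLY.R2.Defs

/-!
Project PLY, assembly (helper49): GLUE BETWEEN PLY/S AND PLY/R2. The outputs of PLY/S (full avoidance, strong folds) with `X n = X * t ^ n` are the inputs
`Fz` of the return estimate.

PROOF. `i = 2 ^ n - 1`, `Nat.size i = n`, `U (2 ^ n) ≤ 2 U i`, `1 ≤ κ U (2 ^ n) θ ^ (3 n)` (`Rq.U_ge`), `A + X t ^ n ≤ (A + 1) X t ^ n`. `full`, `str`: directly.
`lng`: `lf ≤ ∑_(g ≤ n) sf σ i g m ≤ ∑_(g ≤ n) (tt σ n g m + sf1 σ i g m) ≤ T2 n m + ∑_(g ≤ n) sf1 σ i g m`.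
-/

namespace Pool.Agent.HEP

open scoped ENNReal
open Finset

namespace Sys

variable {S : Sys}

/-- The constant. -/
noncomputable def CF (K A κ ρ : ℝ≥0∞) : ℝ≥0∞ := 1 + κ * (1 + 2 * PS.CO K * (A + 1) * (1 - ρ)⁻¹)

theorem CF_ne_top {K A κ ρ : ℝ≥0∞} (hK : K ≠ ⊤) (hA : A ≠ ⊤) (hκ : κ ≠ ⊤) (hρ : ρ < 1) : CF K A κ ρ ≠ ⊤ := by
  have h1 := PS.CO_ne_top hK
  have h2 : (1 - ρ)⁻¹ ≠ ⊤ := ENNReal.inv_ne_top.2 (tsub_pos_of_lt hρ).ne'
  unfold CF
  finiteness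

theorem U_half (n : ℕ) : S.U (2 ^ n) ≤ 2 * S.U (2 ^ n - 1) := by
  have e : 2 ^ n = (2 ^ n - 1) + 1 := by
    have : 1 ≤ 2 ^ n := Nat.one_le_pow _ _ (by norm_num)
    omega
  calc S.U (2 ^ n) = S.U (2 ^ n - 1 + 1) := by rw [← e]
    _ = S.U (2 ^ n - 1) + S.b (2 ^ n - 1 + 1) := S.U_succ _
    _ ≤ S.U (2 ^ n - 1) + S.U (2 ^ n - 1) := add_le_add le_rfl ((S.b_le_one _).trans (S.one_le_U _))
    _ = 2 * S.U (2 ^ n - 1) := (two_mul _).symm

theorem rq_cancel {κ θ : ℝ≥0∞} (hq : S.Rq κ θ) (n : ℕ) {f M : ℝ≥0∞} (h : f * S.U (2 ^ n) ≤ M) :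
    f ≤ κ * M * θ ^ (3 * n) := by
  calc f = f * 1 := (mul_one f).symm
    _ ≤ f * (κ * (S.U (2 ^ n) * θ ^ (3 * n))) := mul_le_mul' le_rfl (hq.U_ge n)
    _ = κ * (f * S.U (2 ^ n)) * θ ^ (3 * n) := by ring
    _ ≤ κ * M * θ ^ (3 * n) := by gcongr

theorem lf_le {K0 : ℕ} (hG : S.Gyp K0) (σ : Bool) {n m : ℕ} (hnm : n ≤ m) :
    S.lf σ (2 ^ n - 1) m ≤ S.T2 n m + ∑ g ∈ range (n + 1), PS.sf1 S σ (2 ^ n - 1) g m := by
  have hn : 1 ≤ 2 ^ n := Nat.one_le_pow _ _ (by norm_num)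
  have hm : 2 ^ n - 1 + 1 ≤ 2 ^ m := by
    rw [Nat.sub_add_cancel hn]
    exact Nat.pow_le_pow_right (by norm_num) hnm
  have h1 : S.lf σ (2 ^ n - 1) m ≤ ∑ g ∈ range (n + 1), S.sf σ (2 ^ n - 1) g m := by
    unfold lf sf
    rw [← Summable.tsum_finsetSum (fun _ _ => ENNReal.summable)]
    refine ENNReal.tsum_le_tsum fun l => ?_
    rw [← Summable.tsum_finsetSum (fun _ _ => ENNReal.summable)]
    refine ENNReal.tsum_le_tsum fun s => ?_
    rw [← Summable.tsum_finsetSum (fun _ _ => ENNReal.summable)]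
    refine ENNReal.tsum_le_tsum fun c => ?_
    by_cases hP : S.av σ l (s ++ [c]) ∧ S.h s ≤ 2 ^ n - 1 ∧ 2 ^ m ≤ S.ht c
    · have hs : Nat.size (S.h s) ≤ n := Nat.size_le.2 (by omega)
      refine le_trans ?_ (Finset.single_le_sum (f := fun g => ind (S.av σ l (s ++ [c]) ∧ Nat.size (S.h s) = g ∧
        2 ^ m ≤ S.ht c) * (S.rg (2 ^ n - 1) l * (S.w s * S.wt c))) (fun _ _ => bot_le)
        (Finset.mem_range.2 (Nat.lt_succ_of_le hs)))
      exact mul_le_mul' (ind_mono fun h => ⟨h.1, rfl, h.2.2⟩) le_rfl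
    · rw [ind_false hP, zero_mul]
      exact bot_le
  refine h1.trans ?_
  calc ∑ g ∈ range (n + 1), S.sf σ (2 ^ n - 1) g m
      ≤ ∑ g ∈ range (n + 1), (S.tt σ n g m + PS.sf1 S σ (2 ^ n - 1) g m) := by
        refine Finset.sum_le_sum fun g hg => ?_
        exact PS.sf_le hG σ (Nat.lt_succ_iff.1 (Finset.mem_range.1 hg)) (by omega) hm
    _ = ∑ g ∈ range (n + 1), S.tt σ n g m + ∑ g ∈ range (n + 1), PS.sf1 S σ (2 ^ n - 1) g m :=
        Finset.sum_add_distrib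
    _ ≤ _ := by
        refine add_le_add ?_ le_rfl
        unfold T2
        exact Finset.single_le_sum (f := fun σ => ∑ r ∈ range (n + 1), S.tt σ n r m) (fun _ _ => bot_le)
          (Finset.mem_univ σ)

theorem Fz_of {K A κ' ρ ρ₂ κ θ τ X t : ℝ≥0∞} (h : PS.SIn S K A κ' ρ ρ₂ (fun n => X * t ^ n)) (hq : S.Rq κ θ)
    (hτ : ρ ≤ τ ^ 2) (hX : 1 ≤ X) (ht : 1 ≤ t) (J : ℕ) : S.Fz (CF K A κ ρ * X * t ^ J) θ τ J := by
  obtain ⟨K0, hG⟩ := h.gyp
  have hO := PS.out_of_in h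
  set c : ℝ≥0∞ := PS.CO K with hc
  set v : ℝ≥0∞ := (1 - ρ)⁻¹ with hv
  have hv1 : 1 ≤ v := ENNReal.one_le_inv.2 tsub_le_self
  have htn : ∀ n : ℕ, 1 ≤ t ^ n := fun n => one_le_pow₀ ht
  have hXt : ∀ n : ℕ, 1 ≤ X * t ^ n := fun n => one_le_mul hX (htn n)
  -- the sum with `A`
  have hAX : ∀ n : ℕ, A + X * t ^ n ≤ (A + 1) * (X * t ^ n) := by
    intro n
    rw [add_mul, one_mul]
    exact add_le_add (le_mul_of_one_le_right' (hXt n)) le_rfl
  have hsize : ∀ n : ℕ, Nat.size (2 ^ n - 1) = n := by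
    intro n
    refine le_antisymm (Nat.size_le.2 ?_) ?_
    · have : 1 ≤ 2 ^ n := Nat.one_le_pow _ _ (by norm_num)
      omega
    · cases n with
      | zero => exact Nat.zero_le _
      | succ n =>
        refine Nat.lt_size.2 ?_
        have : 1 ≤ 2 ^ n := Nat.one_le_pow _ _ (by norm_num)
        rw [pow_succ]
        omega
  -- from a bound at `U (2 ^ n - 1)` to a bound
  have hcan : ∀ (n : ℕ) {f M : ℝ≥0∞}, f * S.U (2 ^ n - 1) ≤ M → f ≤ κ * (2 * M) * θ ^ (3 * n) := by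
    intro n f M hf
    refine rq_cancel hq n ?_
    calc f * S.U (2 ^ n) ≤ f * (2 * S.U (2 ^ n - 1)) := mul_le_mul' le_rfl (U_half n)
      _ = 2 * (f * S.U (2 ^ n - 1)) := by ring
      _ ≤ 2 * M := mul_le_mul' le_rfl hf
  have hpow : ∀ n ≤ J, t ^ n ≤ t ^ J := fun n hn => pow_le_pow_right₀ ht hn
  -- the constant
  have hCF : κ * (2 * (c * (A + 1)) * v) ≤ CF K A κ ρ := by
    unfold CF
    calc κ * (2 * (c * (A + 1)) * v) = κ * (2 * c * (A + 1) * v) := by ring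
      _ ≤ κ * (1 + 2 * c * (A + 1) * v) := mul_le_mul' le_rfl le_add_self
      _ ≤ _ := le_add_self
  have hCF' : κ * (2 * (c * (A + 1))) ≤ CF K A κ ρ := by
    refine le_trans (mul_le_mul' le_rfl ?_) hCF
    exact le_mul_of_one_le_right' hv1
  have hτ0 : ∀ k : ℕ, ρ ^ k ≤ τ ^ (2 * k) := by
    intro k
    rw [pow_mul]
    exact pow_le_pow_left' hτ k
  refine ⟨?_, ?_, ?_, ?_⟩
  · have h1 : (1 : ℝ≥0∞) ≤ CF K A κ ρ := by
      unfold CF
      exact le_self_add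
    rw [mul_assoc]
    exact one_le_mul h1 (hXt J)
  · intro n hn
    have h1 := hO.full (2 ^ n - 1)
    rw [hsize n] at h1
    refine (hcan n h1).trans ?_
    refine mul_le_mul' ?_ le_rfl
    calc κ * (2 * (c * (A + X * t ^ n))) ≤ κ * (2 * (c * ((A + 1) * (X * t ^ n)))) := by
          gcongr
          exact hAX n
      _ = κ * (2 * (c * (A + 1))) * X * t ^ n := by ring
      _ ≤ CF K A κ ρ * X * t ^ J := mul_le_mul' (mul_le_mul' hCF' le_rfl) (hpow n hn)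
  · intro σ n g m hn hgn hnm
    have hn1 : 1 ≤ 2 ^ n := Nat.one_le_pow _ _ (by norm_num)
    have h1 := hO.s1 σ (2 ^ n - 1) g m
      (by rw [Nat.sub_add_cancel hn1]; exact Nat.pow_le_pow_right (by norm_num) hgn)
      (by rw [Nat.sub_add_cancel hn1]; exact Nat.pow_le_pow_right (by norm_num) hnm)
    rw [hsize n, mul_comm] at h1
    have h2 : S.sf1 σ (2 ^ n - 1) g m = PS.sf1 S σ (2 ^ n - 1) g m := rfl
    rw [h2]
    refine (hcan n h1).trans ?_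
    calc κ * (2 * (c * (A + X * t ^ n) * ρ ^ (m - g))) * θ ^ (3 * n)
        ≤ κ * (2 * (c * ((A + 1) * (X * t ^ n)) * τ ^ (2 * (m - g)))) * θ ^ (3 * n) :=
          mul_le_mul' (mul_le_mul' le_rfl (mul_le_mul' le_rfl (mul_le_mul' (mul_le_mul' le_rfl (hAX n)) (hτ0 _)))) le_rfl
      _ = κ * (2 * (c * (A + 1))) * X * t ^ n * θ ^ (3 * n) * τ ^ (2 * (m - g)) := by ring
      _ ≤ CF K A κ ρ * X * t ^ J * θ ^ (3 * n) * τ ^ (2 * (m - g)) :=
          mul_le_mul' (mul_le_mul' (mul_le_mul' (mul_le_mul' hCF' le_rfl) (hpow n hn)) le_rfl) le_rfl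
  · intro σ n m hn hnm
    have hn1 : 1 ≤ 2 ^ n := Nat.one_le_pow _ _ (by norm_num)
    have hT : S.T2 n m ≤ κ * (X * t ^ n * τ ^ (2 * (m - n))) * θ ^ (3 * n) := by
      refine rq_cancel hq n ?_
      rw [mul_comm]
      refine (h.tb n m hnm).trans ?_
      refine mul_le_mul' le_rfl ?_
      rw [pow_mul]
      exact pow_le_pow_left' (h.kap_le.trans hτ) _
    have hg : ∀ g ∈ range (n + 1), PS.sf1 S σ (2 ^ n - 1) g m ≤
        κ * (2 * (c * (A + 1))) * X * t ^ n * θ ^ (3 * n) * τ ^ (2 * (m - n)) * ρ ^ (n - g) := by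
      intro g hg
      have hgn : g ≤ n := Nat.lt_succ_iff.1 (Finset.mem_range.1 hg)
      have h1 := hO.s1 σ (2 ^ n - 1) g m
        (by rw [Nat.sub_add_cancel hn1]; exact Nat.pow_le_pow_right (by norm_num) hgn)
        (by rw [Nat.sub_add_cancel hn1]; exact Nat.pow_le_pow_right (by norm_num) hnm)
      rw [hsize n, mul_comm] at h1
      refine (hcan n h1).trans ?_
      have e : m - g = (m - n) + (n - g) := by omega
      calc κ * (2 * (c * (A + X * t ^ n) * ρ ^ (m - g))) * θ ^ (3 * n)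
          ≤ κ * (2 * (c * ((A + 1) * (X * t ^ n)) * (τ ^ (2 * (m - n)) * ρ ^ (n - g)))) * θ ^ (3 * n) := by
            rw [e, pow_add]
            exact mul_le_mul' (mul_le_mul' le_rfl (mul_le_mul' le_rfl (mul_le_mul' (mul_le_mul' le_rfl (hAX n))
              (mul_le_mul' (hτ0 _) le_rfl)))) le_rfl
        _ = _ := by ring
    have hgeo : ∑ g ∈ range (n + 1), ρ ^ (n - g) ≤ v := by
      have e1 : ∑ g ∈ range (n + 1), ρ ^ (n - g) = ∑ k ∈ range (n + 1), ρ ^ k := by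
        rw [← Finset.sum_range_reflect (fun k => ρ ^ k) (n + 1)]
        refine Finset.sum_congr rfl fun g _ => ?_
        congr 1
      rw [e1, hv, ← ENNReal.tsum_geometric]
      exact ENNReal.sum_le_tsum _
    refine (lf_le hG σ hnm).trans ?_
    calc S.T2 n m + ∑ g ∈ range (n + 1), PS.sf1 S σ (2 ^ n - 1) g m
        ≤ κ * (X * t ^ n * τ ^ (2 * (m - n))) * θ ^ (3 * n) + ∑ g ∈ range (n + 1),
          κ * (2 * (c * (A + 1))) * X * t ^ n * θ ^ (3 * n) * τ ^ (2 * (m - n)) * ρ ^ (n - g) :=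
          add_le_add hT (Finset.sum_le_sum hg)
      _ = κ * (X * t ^ n * τ ^ (2 * (m - n))) * θ ^ (3 * n) +
          κ * (2 * (c * (A + 1))) * X * t ^ n * θ ^ (3 * n) * τ ^ (2 * (m - n)) * ∑ g ∈ range (n + 1), ρ ^ (n - g) := by
          rw [Finset.mul_sum]
      _ ≤ κ * (X * t ^ n * τ ^ (2 * (m - n))) * θ ^ (3 * n) +
          κ * (2 * (c * (A + 1))) * X * t ^ n * θ ^ (3 * n) * τ ^ (2 * (m - n)) * v := by gcongr
      _ = κ * (1 + 2 * c * (A + 1) * v) * X * t ^ n * θ ^ (3 * n) * τ ^ (2 * (m - n)) := by ring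
      _ ≤ CF K A κ ρ * X * t ^ J * θ ^ (3 * n) * τ ^ (2 * (m - n)) := by
          refine mul_le_mul' (mul_le_mul' (mul_le_mul' (mul_le_mul' ?_ le_rfl) (hpow n hn)) le_rfl) le_rfl
          unfold CF
          exact le_add_self

end Sys

end Pool.Agent.HEP
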