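import Pool.Agent.PLY.GlV
import Pool.Agent.PLY.GlF
import Pool.Agent.PLY.V.Mz
import Pool.Agent.PLY.T2.Main
import Pool.Agent.PLY.R2.RetMain
import Pool.Agent.PLY.R2.Quarter
import Pool.Agent.PLZ.RRtn

/-!
Project PLY, assembly (helper49): THE INPUTS OF THE CHAIN STEP, for an abstract system `S` with `Gyp`, `Rts` (returns), `Quarter` (regularity) and `Hit` (Lemma G).

Constants: `q₂ < ρ < q₁ < 1` the rates (`Hit`, `Rho` with rate `q₂`; `closed`, `mz_le`), `κ' = q₂ ^ (3/4)`, `ρs = max q₁ κ'` the rate of PLY/S, `τ` with `θ < τ < 1`,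
`ρs ≤ τ ^ 2` (`θ ^ 4 = 1/2`), `t0 > 1` with `t0 ^ 2 τ ≤ 1`. Then `ret3` (PLY/R2) with `Fz_of`, `tt_closed` (PLY/T2) with `dec` (PLZ/RRtn), `ply_of_in` (PLY/S).
-/

namespace Pool.Agent.HEP

open scoped ENNReal

namespace Sys

variable {S : Sys}

theorem sin_of {KG : ℕ} (hG : S.Gyp KG) {L A κ' ρs q₁ q₂ C : ℝ≥0∞} (hA : 1 ≤ A) (hρs : ρs < 1) (hκ : κ' ≤ ρs) (h1 : q₁ ≤ ρs)
    (h2 : q₂ ≤ ρs) (hR : S.Rho L q₂) (hTA : ∀ g, S.TA g ≤ A) (hC : C ≤ A)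
    (hmz : ∀ σ i g y k, g ≤ y → y ≤ k → 2 ^ y ≤ i + 1 → S.U (2 ^ y) * S.mz σ i g y k ≤ C * q₁ ^ (y - g) * q₂ ^ (k - y))
    {X t : ℝ≥0∞} (ht : 1 ≤ t) (hTB : S.TB κ' X t) : PS.SIn S L A κ' ρs q₂ (fun n => X * t ^ n) where
  gyp := ⟨KG, hG⟩
  one_le := hA
  rho_lt := hρs
  kap_le := hκ
  rho2_le := h2
  reg := hR
  ta := hTA
  mz := by
    intro σ i g y m hgy hym hi
    refine (hmz σ i g y m hgy hym hi).trans ?_
    have e : m - g = (y - g) + (m - y) := by omega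
    rw [e, pow_add, ← mul_assoc]
    exact mul_le_mul' (mul_le_mul' hC (pow_le_pow_left' h1 _)) (pow_le_pow_left' h2 _)
  mono := fun a b hab => mul_le_mul' le_rfl (pow_le_pow_right₀ ht hab)
  tb := fun n m hnm => hTB n m hnm

/-- **The inputs of the chain step.** -/
theorem ply_of {KG : ℕ} (hG : S.Gyp KG) (R : S.Rts) (hQ : S.Quarter) {wd : S.B → ℕ} {K ρ₁ ρ₂ : ℝ≥0∞} (hK : K ≠ ⊤)
    (h21 : ρ₂ < ρ₁) (h1 : ρ₁ < 1) (hH : S.Hit wd K ρ₁ ρ₂) :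
    ∃ K r : ℝ≥0∞, K ≠ ⊤ ∧ r < 1 ∧ S.Ply K r := by
  obtain ⟨κ, hκ⟩ := reg_of_quarter hQ
  obtain ⟨K2, r, hK2, hr, hR⟩ := rho_of_quarter hG.anti hQ
  -- the rates
  have hm : max (max ρ₂ r) 2⁻¹ < 1 := by
    refine max_lt (max_lt (h21.trans h1) hr) ?_
    exact ENNReal.inv_lt_one.2 (by norm_num)
  obtain ⟨ρ, hρ1, hρ2⟩ := exists_between hm
  obtain ⟨t, ht1, ht2⟩ := exists_between hρ2
  set q₂ : ℝ≥0∞ := max ρ₂ r with hq₂
  set q₁ : ℝ≥0∞ := max ρ₁ t with hq₁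
  set L : ℝ≥0∞ := max (max K K2) 1 with hL
  have hLt : L ≠ ⊤ := by
    rw [hL]
    exact ne_of_lt (max_lt (max_lt (lt_top_iff_ne_top.2 hK) (lt_top_iff_ne_top.2 hK2)) ENNReal.one_lt_top)
  have hL1 : 1 ≤ L := le_max_right _ _
  have hH' : S.Hit wd L q₁ q₂ :=
    hH.mono ((le_max_left _ _).trans (le_max_left _ _)) (le_max_left _ _) (le_max_left _ _)
  have hR' : S.Rho L q₂ := hR.mono ((le_max_right _ _).trans (le_max_left _ _)) (le_max_right _ _)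
  have hhalf : 2⁻¹ ≤ ρ := ((le_max_right _ _).trans_lt hρ1).le
  have h2 : q₂ < ρ := (le_max_left _ _).trans_lt hρ1
  have h1' : ρ < q₁ := ht1.trans_le (le_max_right _ _)
  have h11 : q₁ < 1 := max_lt h1 ht2
  have h0 : ρ ≠ 0 := (lt_of_le_of_lt bot_le h2).ne'
  have h21' : q₂ < 1 := h2.trans (h1'.trans h11)
  obtain ⟨B, hB1, hBt, hB⟩ := closed hG (Quarter_b_ne hQ) hH' hR' hL1 hLt hhalf h2 h1' h11
    (sharp_of wd hG hκ h0 (h1'.trans h11))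
  set C : ℝ≥0∞ := CZ KG L ρ q₁ B with hC
  have hCt : C ≠ ⊤ := CZ_ne_top hLt hhalf h1' h11.le hBt
  have hmz : ∀ σ i g y k, g ≤ y → y ≤ k → 2 ^ y ≤ i + 1 →
      S.U (2 ^ y) * S.mz σ i g y k ≤ C * q₁ ^ (y - g) * q₂ ^ (k - y) := fun σ i g y k hgy hyk hi =>
    mz_le hG (Quarter_b_ne hQ) hH' hR' hL1 hhalf h1'.le h11.le h21'.le hB1 hB σ i g y k hgy hyk hi
  have hLL : ∀ n m, n ≤ m → S.U (2 ^ n) * ∑' c, ind (2 ^ m ≤ S.ht c) * S.wt c ≤ (L * L) * q₂ ^ (m - n) := by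
    intro n m hnm
    have e1 : ∑' c, ind (2 ^ m ≤ S.ht c) * S.wt c ≤ ∑' c, ind (2 ^ m ≤ S.sz wd c) * S.wt c :=
      ENNReal.tsum_le_tsum fun c => mul_le_mul' (ind_mono fun h => h.trans (le_max_left _ _)) le_rfl
    calc S.U (2 ^ n) * ∑' c, ind (2 ^ m ≤ S.ht c) * S.wt c
        ≤ (L * q₂ ^ (m - n) * S.U (2 ^ m)) * ∑' c, ind (2 ^ m ≤ S.sz wd c) * S.wt c :=
          mul_le_mul' (hR' n m hnm) e1
      _ = L * q₂ ^ (m - n) * (S.U (2 ^ m) * ∑' c, ind (2 ^ m ≤ S.sz wd c) * S.wt c) := by ring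
      _ ≤ L * q₂ ^ (m - n) * L := mul_le_mul' le_rfl (hH'.tail m)
      _ = (L * L) * q₂ ^ (m - n) := by ring
  set A : ℝ≥0∞ := max B C with hA
  have hAt : A ≠ ⊤ := (max_lt (lt_top_iff_ne_top.2 hBt) (lt_top_iff_ne_top.2 hCt)).ne
  have hA1 : 1 ≤ A := hB1.trans (le_max_left _ _)
  have hTA : ∀ g, S.TA g ≤ A := fun g => (hB g).1.trans (le_max_left _ _)
  -- the rate of PLY/S
  set κ' : ℝ≥0∞ := q₂ ^ (3 / 4 : ℝ) with hκ'
  have hκ1 : κ' < 1 := ENNReal.rpow_lt_one h21' (by norm_num)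
  set ρs : ℝ≥0∞ := max q₁ κ' with hρs
  have hρs1 : ρs < 1 := max_lt h11 hκ1
  have hq2s : q₂ ≤ ρs := (h2.trans h1').le.trans (le_max_left _ _)
  -- the regularity in dyadic form
  obtain ⟨κq, hq⟩ := rq_of_quarter hQ hG.anti
  set θ : ℝ≥0∞ := ENNReal.ofReal ((2 : ℝ) ^ (-(1 / 4) : ℝ)) with hθ
  have hθ1 : θ < 1 := hq.th_lt
  -- the rate of the return estimate
  have hs : max ρs (θ ^ 2) < 1 := max_lt hρs1 (pow_lt_one₀ bot_le hθ1 (by norm_num))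
  obtain ⟨v, hv1, hv2⟩ := exists_between hs
  have hv0 : v ≠ 0 := (lt_of_le_of_lt bot_le hv1).ne'
  set τ : ℝ≥0∞ := v ^ (1 / 2 : ℝ) with hτ
  have hττ : τ ^ 2 = v := by
    rw [hτ, ← ENNReal.rpow_natCast, ← ENNReal.rpow_mul]
    norm_num
  have hτ1 : τ < 1 := ENNReal.rpow_lt_one hv2 (by norm_num)
  have hτ0 : τ ≠ 0 := by
    intro h
    rw [h, zero_pow (by norm_num)] at hττ
    exact hv0 hττ.symm
  have hτt : τ ≠ ⊤ := (hτ1.trans_le le_top).ne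
  have hθτ : θ < τ := by
    by_contra hcon
    have h3 : τ ^ 2 ≤ θ ^ 2 := pow_le_pow_left' (not_lt.1 hcon) 2
    rw [hττ] at h3
    exact absurd (lt_of_le_of_lt (le_max_right _ _) hv1) (not_lt.2 h3)
  have hρτ : ρs ≤ τ ^ 2 := by
    rw [hττ]
    exact (lt_of_le_of_lt (le_max_left _ _) hv1).le
  set t0 : ℝ≥0∞ := (τ⁻¹) ^ (1 / 2 : ℝ) with ht0
  have ht0t : t0 ≠ ⊤ := ENNReal.rpow_ne_top_of_nonneg (by norm_num) (ENNReal.inv_ne_top.2 hτ0)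
  have ht01 : 1 < t0 := ENNReal.one_lt_rpow (ENNReal.one_lt_inv.2 hτ1) (by norm_num)
  have ht0τ : t0 ^ 2 * τ ≤ 1 := by
    have : t0 ^ 2 = τ⁻¹ := by
      rw [ht0, ← ENNReal.rpow_natCast, ← ENNReal.rpow_mul]
      norm_num
    rw [this, ENNReal.inv_mul_cancel hτ0 hτt]
  -- the return estimate
  obtain ⟨KR, hKR, hRet⟩ := ret3 hG (κ' := κ') (C := CF L A κq ρs) (t0 := t0) hq hθτ hτ1
    (CF_ne_top hLt hAt hq.kt hρs1) ht0τ (fun X t hX hXt ht ht' hTB J =>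
      Fz_of (sin_of hG hA1 hρs1 (le_max_right _ _) (le_max_left _ _) hq2s hR' hTA (le_max_right _ _) hmz ht hTB)
        hq hρτ hX ht J)
  -- the closing
  obtain ⟨ρ', C', hρ'1, hC't, htt, hTB⟩ := tt_closed hG R h11 h21' hτ1 ht01 ht0t hBt hCt
    (ENNReal.mul_ne_top hLt hLt) hKR (fun τ y M _ hy => dec R τ y M hy) (fun g => (hB g).1) hLL hmz hRet
  set r' : ℝ≥0∞ := max ρs ρ' with hr'
  have hSin : PS.SIn S L A κ' ρs q₂ (fun _ => C') := by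
    have h3 := sin_of hG hA1 hρs1 (le_max_right _ _) (le_max_left _ _) hq2s hR' hTA (le_max_right _ _) hmz le_rfl hTB
    have e : (fun n : ℕ => C' * 1 ^ n) = fun _ => C' := by
      funext n
      rw [one_pow, mul_one]
    rwa [e] at h3
  refine ⟨L + (2 * C' + PS.CO L * (A + C')), r', ?_, max_lt hρs1 hρ'1,
    PS.ply_of_in hSin (le_max_left _ _) fun σ g n m hgn hnm => (htt σ g n m hgn hnm).trans ?_⟩
  · have h3 := PS.CO_ne_top hLt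
    finiteness
  · exact mul_le_mul' le_rfl (pow_le_pow_left' (le_max_right _ _) _)

end Sys

end Pool.Agent.HEP
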