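import Pool.Agent.PLY.MainOf
import Pool.Agent.PLY.PlyOf
import Pool.Agent.PLY.Ch.Main
import Pool.Agent.PLY.G.Main
import Pool.Agent.PLY.G.Flat
import Pool.Agent.PLZ.RI
import Pool.Agent.BEX.Reg

/-!
Project PLY, ASSEMBLY (helper49): THE POLYNOMIAL BOUND (MP_8c6f77_pr, honeycomb lattice): there is `C` with `a_n ≤ C n^C μ^n` and
`P_n ≥ 1 / (C n^C)` for every `n ≥ 1`.
-/

namespace Pool.Agent.HEP

open scoped ENNReal

/-- Lemma G. -/
theorem chit : CHit := by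
  have h1 : r34 < 1 := by
    unfold r34
    rw [ENNReal.ofReal_lt_one]
    exact Real.rpow_lt_one_of_one_lt_of_neg (by norm_num) (by norm_num)
  obtain ⟨ρ₂, h2, h2'⟩ := exists_between h1
  obtain ⟨K, ρ₁, _, hK, h3, h4, hH, _⟩ := hsI_lemmaG_of (flat hsI_quarter) h2 h2'
  exact ⟨wdb, K, ρ₁, ρ₂, hK, h3, h4, hH⟩

/-- The inputs of the chain step. -/
theorem cply : CPly := by
  obtain ⟨wd, K, ρ₁, ρ₂, hK, h21, h1, hH⟩ := chit
  exact Sys.ply_of hsI_gyp hsI_R hsI_quarter hK h21 h1 hH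

/-- **The polynomial bound.** -/
theorem poly : ∃ C : ℝ, 0 < C ∧ ∀ n : ℕ, 1 ≤ n →
    (Pool.Agent.Hhelper14.Honeycomb.a n : ℝ) ≤
      C * (n : ℝ) ^ C * Pool.Agent.Hhelper14.Honeycomb.muL ^ n ∧
    (C * (n : ℝ) ^ C)⁻¹ ≤ Pool.Agent.Hhelper14.Honeycomb.P n :=
  main_of cply fun K ρ hK hρ => ply_chm_nat K ρ hK hρ

/-- Full avoidance of two independent critical bridges up to the height `i`. -/
theorem full_hsI : ∃ K : ℝ≥0∞, K ≠ ⊤ ∧ ∀ i, hsI.fa i * hsI.U i ≤ K := by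
  obtain ⟨K, ρ, hK, _, hP⟩ := cply
  exact ⟨K, hK, hP.full⟩

end Pool.Agent.HEP
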