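import Pool.Agent.GAP.Fin
import Pool.Agent.Hhelper64.T12.Tr

/-!
From the polynomial bound on the honeycomb lattice to the same bound on the honeycomb lattice and on `(3,12^2)`, with one
constant.
-/

namespace Pool.Agent.HEP

open Pool.Agent.Hhelper14 Pool.Agent.Hhelper14.SAW Pool.Agent.Hhelper63.HW Pool.Agent.HHP
open Pool.Agent.Hhelper64 Pool.Agent.Hhelper64.T12

theorem fin12 (h : ∃ C : ℝ, 0 < C ∧ ∀ n : ℕ, 1 ≤ n →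
      (Honeycomb.a n : ℝ) ≤ C * (n : ℝ) ^ C * Honeycomb.muL ^ n ∧ (C * (n : ℝ) ^ C)⁻¹ ≤ Honeycomb.P n) :
    ∃ C : ℝ, 0 < C ∧ ∀ n : ℕ, 1 ≤ n →
      ((Honeycomb.a n : ℝ) ≤ C * (n : ℝ) ^ C * Honeycomb.muL ^ n ∧ (C * (n : ℝ) ^ C)⁻¹ ≤ Honeycomb.P n) ∧
      ∀ x ∈ ThreeTwelve.V, (ThreeTwelve.a x n : ℝ) ≤ C * (n : ℝ) ^ C * ThreeTwelve.muL x ^ n ∧
        (C * (n : ℝ) ^ C)⁻¹ ≤ ThreeTwelve.P x n := by
  obtain ⟨C₁, hC₁, h1⟩ := h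
  have hmuL := muL_eq hw_quant
  have h0 : ∃ C : ℝ, 0 < C ∧ ∀ n : ℕ, 1 ≤ n → (an n : ℝ) ≤ C * (n : ℝ) ^ C * mu ^ n := by
    refine ⟨C₁, hC₁, fun n hn => ?_⟩
    have := (h1 n hn).1
    rwa [hmuL, SAW.a_eq] at this
  obtain ⟨C₂, hC₂, h2⟩ := poly12 h0
  refine ⟨max C₁ C₂, lt_max_of_lt_left hC₁, fun n hn => ?_⟩
  have hn1 : (1 : ℝ) ≤ n := by exact_mod_cast hn
  have hn0 : (0 : ℝ) < n := by linarith
  have hmono : ∀ D : ℝ, 0 < D → D ≤ max C₁ C₂ → D * (n : ℝ) ^ D ≤ max C₁ C₂ * (n : ℝ) ^ max C₁ C₂ := by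
    intro D hD hDC
    have e1 : (n : ℝ) ^ D ≤ (n : ℝ) ^ max C₁ C₂ := Real.rpow_le_rpow_of_exponent_le hn1 hDC
    exact mul_le_mul hDC e1 (by positivity) (hD.le.trans hDC)
  refine ⟨⟨?_, ?_⟩, fun x hx => ⟨?_, ?_⟩⟩
  · refine (h1 n hn).1.trans (mul_le_mul_of_nonneg_right (hmono C₁ hC₁ (le_max_left _ _)) ?_)
    rw [hmuL]
    exact (pow_pos mu_pos n).le
  · refine le_trans (inv_anti₀ (by positivity) (hmono C₁ hC₁ (le_max_left _ _))) (h1 n hn).2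
  · refine (h2 x hx n hn).1.trans (mul_le_mul_of_nonneg_right (hmono C₂ hC₂ (le_max_right _ _)) ?_)
    rw [muL_eq' hx]
    have := xx_pos
    positivity
  · refine le_trans ?_ (h2 x hx n hn).2
    refine (inv_anti₀ (by positivity) (hmono C₂ hC₂ (le_max_right _ _))).trans (le_of_eq ?_)
    rw [Real.rpow_neg hn0.le, mul_inv, div_eq_mul_inv, mul_comm]

end Pool.Agent.HEP
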