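import Pool.Agent.PLY.V.Main
import Pool.Agent.PLY.V.Sh
import Pool.Agent.BEX.Quart

/-!
Project PLY, assembly (helper49): GLUE OF THE FOLD ESTIMATE. From the output of Lemma G (`Hit` with some rates) and the regularity
(`Quarter`) to the output of PLY/V with one constant `A` and one rate `ρ < 1`: `vout_of_hit`.
-/

namespace Pool.Agent.HEP

open scoped ENNReal

namespace Sys

variable {S : Sys}

/-- `Hit` is monotone in the constants. -/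
theorem Hit.mono {wd : S.B → ℕ} {K K' ρ₁ ρ₁' ρ₂ ρ₂' : ℝ≥0∞} (h : S.Hit wd K ρ₁ ρ₂) (hK : K ≤ K') (h1 : ρ₁ ≤ ρ₁')
    (h2 : ρ₂ ≤ ρ₂') : S.Hit wd K' ρ₁' ρ₂' where
  dx := h.dx
  hi := h.hi
  lo := h.lo
  tail k := (h.tail k).trans hK
  hit σ l s i j k hij hjk hh hds := (h.hit σ l s i j k hij hjk hh hds).trans (by gcongr)

/-- The output of PLY/V. -/
structure Vout (S : Sys) (wd : S.B → ℕ) (A ρ : ℝ≥0∞) : Prop where
  ta : ∀ g, S.TA g ≤ A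
  tk : ∀ g k, g ≤ k → S.TK wd g k ≤ A * ρ ^ (k - g)
  sp : ∀ σ g j k, g ≤ j → j ≤ k → S.SP wd σ g j k ≤ A * ρ ^ (k - g)

theorem Quarter_b_ne {A : Alph} (hQ : A.Quarter) (N : ℕ) : A.b N ≠ 0 := by
  obtain ⟨c, C, hc, _, h⟩ := hQ
  have h1 : 0 < ENNReal.ofReal (c * ((N : ℝ) + 1) ^ (-(1 / 4) : ℝ)) := ENNReal.ofReal_pos.2 (by positivity)
  exact (h1.trans_le (h N).1).ne'

theorem reg_of_quarter (hQ : S.Quarter) : ∃ κ : ℕ, S.Reg κ := by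
  obtain ⟨C, hC⟩ := hQ.b_reg
  refine ⟨2 * C, fun N hN => (hC N).trans ?_⟩
  have h1 : (C : ℝ≥0∞) * ((N + 1 : ℕ) : ℝ≥0∞) ≤ ((2 * C : ℕ) : ℝ≥0∞) * (N : ℝ≥0∞) := by
    have : C * (N + 1) ≤ 2 * C * N := by nlinarith
    exact_mod_cast this
  exact mul_le_mul' h1 le_rfl

theorem rho_of_quarter (hb : Antitone S.b) (hQ : S.Quarter) : ∃ K r : ℝ≥0∞, K ≠ ⊤ ∧ r < 1 ∧ S.Rho K r := by
  obtain ⟨K, hK, h⟩ := hQ.reg hb
  refine ⟨K, _, hK, ?_, h⟩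
  rw [ENNReal.ofReal_lt_one]
  exact Real.rpow_lt_one_of_one_lt_of_neg (by norm_num) (by norm_num)

theorem Rho.mono {K K' r r' : ℝ≥0∞} (h : S.Rho K r) (hK : K ≤ K') (hr : r ≤ r') : S.Rho K' r' :=
  fun j k hjk => (h j k hjk).trans (by gcongr)

/-- From Lemma G and the regularity to the output of PLY/V. -/
theorem vout_of_hit {KG : ℕ} (hG : S.Gyp KG) (hQ : S.Quarter) {wd : S.B → ℕ} {K ρ₁ ρ₂ : ℝ≥0∞} (hK : K ≠ ⊤)
    (h21 : ρ₂ < ρ₁) (h1 : ρ₁ < 1) (hH : S.Hit wd K ρ₁ ρ₂) :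
    ∃ A ρ : ℝ≥0∞, 1 ≤ A ∧ A ≠ ⊤ ∧ ρ < 1 ∧ S.Vout wd A ρ := by
  obtain ⟨κ, hκ⟩ := reg_of_quarter hQ
  obtain ⟨K2, r, hK2, hr, hR⟩ := rho_of_quarter hG.anti hQ
  -- the rates
  have hm : max (max ρ₂ r) 2⁻¹ < 1 := by
    refine max_lt (max_lt (h21.trans h1) hr) ?_
    exact ENNReal.inv_lt_one.2 (by norm_num)
  obtain ⟨ρ, hρ1, hρ2⟩ := exists_between hm
  obtain ⟨t, ht1, ht2⟩ := exists_between hρ2
  set q₂ : ℝ≥0∞ := max ρ₂ r with hq₂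
  set q₁ : ℝ≥0∞ := max ρ₁ t with hq₁
  set L : ℝ≥0∞ := max (max K K2) 1 with hL
  have hLt : L ≠ ⊤ := by
    rw [hL]
    exact ne_of_lt (max_lt (max_lt (lt_top_iff_ne_top.2 hK) (lt_top_iff_ne_top.2 hK2)) ENNReal.one_lt_top)
  have hL1 : 1 ≤ L := le_max_right _ _
  have hH' : S.Hit wd L q₁ q₂ :=
    hH.mono ((le_max_left _ _).trans (le_max_left _ _)) (le_max_left _ _) (le_max_left _ _)
  have hR' : S.Rho L q₂ := hR.mono ((le_max_right _ _).trans (le_max_left _ _)) (le_max_right _ _)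
  have hhalf : 2⁻¹ ≤ ρ := ((le_max_right _ _).trans_lt hρ1).le
  have h2 : q₂ < ρ := (le_max_left _ _).trans_lt hρ1
  have h1' : ρ < q₁ := ht1.trans_le (le_max_right _ _)
  have h11 : q₁ < 1 := max_lt h1 ht2
  have h0 : ρ ≠ 0 := (lt_of_le_of_lt bot_le h2).ne'
  have h10 : q₁ ≠ 0 := (lt_of_le_of_lt bot_le h1').ne'
  have h21' : q₂ ≤ 1 := (h2.trans (h1'.trans h11)).le
  obtain ⟨B, hB1, hBt, hB⟩ := closed hG (Quarter_b_ne hQ) hH' hR' hL1 hLt hhalf h2 h1' h11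
    (sharp_of wd hG hκ h0 (h1'.trans h11))
  have hsp := giant hG (Quarter_b_ne hQ) hH' hR' hL1 hhalf (h1'.trans h11).le h10 h11.le h21' hB1 hB
  set M : ℝ≥0∞ := max B (KI L q₁ * C2 KG ρ q₁ * B) with hM
  have h1t : q₁ ≠ ⊤ := ne_top_of_le_ne_top ENNReal.one_ne_top h11.le
  have hr' : ρ * q₁⁻¹ < 1 := by
    rw [← div_eq_mul_inv]
    exact (ENNReal.div_lt_iff (Or.inl h10) (Or.inl h1t)).2 (by rwa [one_mul])
  have hinv0 : ρ⁻¹ ≠ ⊤ := ENNReal.inv_ne_top.2 h0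
  have hinv1 : q₁⁻¹ ≠ ⊤ := ENNReal.inv_ne_top.2 h10
  have hinv3 : (1 - ρ * q₁⁻¹)⁻¹ ≠ ⊤ := ENNReal.inv_ne_top.2 (tsub_pos_of_lt hr').ne'
  have hKI : KI L q₁ * C2 KG ρ q₁ * B ≠ ⊤ := by
    have e1 : KI L q₁ ≠ ⊤ := by
      unfold KI
      exact ENNReal.mul_ne_top (ENNReal.mul_ne_top (ENNReal.mul_ne_top (by norm_num) hLt) hLt)
        (ENNReal.mul_ne_top hinv1 hinv1)
    have e2 : C2 KG ρ q₁ ≠ ⊤ := by
      unfold C2 CG
      refine ENNReal.add_ne_top.2 ⟨ENNReal.one_ne_top, ENNReal.mul_ne_top ?_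
        (ENNReal.mul_ne_top (ENNReal.mul_ne_top hinv0 hinv0) hinv3)⟩
      exact ENNReal.add_ne_top.2 ⟨ENNReal.mul_ne_top (by norm_num) (ENNReal.natCast_ne_top _), ENNReal.one_ne_top⟩
    exact ENNReal.mul_ne_top (ENNReal.mul_ne_top e1 e2) hBt
  refine ⟨M, q₁, hB1.trans (le_max_left _ _), ?_, h11, ⟨fun g => (hB g).1.trans (le_max_left _ _), fun g k hgk => ?_, ?_⟩⟩
  · rw [hM]
    exact ne_of_lt (max_lt (lt_top_iff_ne_top.2 hBt) (lt_top_iff_ne_top.2 hKI))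
  · refine ((hB g).2 k hgk).trans ?_
    gcongr
    exact le_max_left _ _
  · intro σ g j k hgj hjk
    refine (hsp σ g j k hgj hjk).trans ?_
    have e : k - g = (j - g) + (k - j) := by omega
    rw [e, pow_add, ← mul_assoc]
    exact mul_le_mul' (mul_le_mul' (le_max_right _ _) le_rfl) (pow_le_pow_left' (h2.trans h1').le _)

end Sys

end Pool.Agent.HEP
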