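import Pool.Agent.PLY.GlV
import Pool.Agent.PLY.Ch.Defs
import Pool.Agent.GAP.Fin
import Pool.Agent.GAP.IHyp

/-!
Project PLY, ASSEMBLY (owner helper49): THE NAMED CONTRACTS AND THE GLUE, no sorry. `PLY/Main.lean` will apply `main_of` to the theorems of the owners.

THE POLYNOMIAL BOUND (MP_8c6f77_pr, honeycomb lattice): there is `C` with `a_n ≤ C n^C μ^n` and `P_n ≥ 1 / (C n^C)` for every `n`.

CHAIN OF STATEMENTS.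
 1. `hsI_gyp` (GAP/IHyp, helper46), `hsI_quarter` (BEX/Reg, helper45).
 2. `CHit`: Lemma G for `hsI` (PLY/G: helper37 with helper5, 88, 68, 96).
 3. `vout_of_hit` (PLY/GlV): `TA g ≤ A`, `TK wd g k ≤ A ρ^(k-g)`, `SP wd σ g j k ≤ A ρ^(k-g)` (PLY/V helper27, PLF/I2 helper78).
 4. `CPly`: the two-sided part, from (1), (2), (3) and the geometry of the returns (`hsI_R : hsI.Rts`, PLZ: helper46, 13, 72, 75) to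
    `hsI.Ply K ρ`, `ρ < 1` (RET: PLY/R2 helper39; closing: PLY/T2 helper71, 62; PLY/S helper40).
 5. `CCh`: the chains of strands, `Ply K ρ → chm n ≤ C (n + 1) ^ D` (PLY/Ch, helper56).
 6. `fin_poly` (GAP/Fin, helper42).
-/

namespace Pool.Agent.HEP

open scoped ENNReal

/-- Contract 2: Lemma G. -/
def CHit : Prop := ∃ (wd : hsI.B → ℕ) (K ρ₁ ρ₂ : ℝ≥0∞), K ≠ ⊤ ∧ ρ₂ < ρ₁ ∧ ρ₁ < 1 ∧ hsI.Hit wd K ρ₁ ρ₂

/-- Contract 4: the inputs of the chain step. -/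
def CPly : Prop := ∃ K ρ : ℝ≥0∞, K ≠ ⊤ ∧ ρ < 1 ∧ hsI.Ply K ρ

/-- Contract 5: the chain step. -/
def CCh : Prop := ∀ K ρ : ℝ≥0∞, K ≠ ⊤ → ρ < 1 → ∃ C D : ℕ, ∀ S : Sys, S.Ply K ρ →
  ∀ n : ℕ, S.chm n ≤ (C : ℝ≥0∞) * ((n : ℝ≥0∞) + 1) ^ D

theorem hsI_vout (hQ : hsI.Quarter) (h : CHit) :
    ∃ (wd : hsI.B → ℕ) (A ρ : ℝ≥0∞), 1 ≤ A ∧ A ≠ ⊤ ∧ ρ < 1 ∧ hsI.Vout wd A ρ := by
  obtain ⟨wd, K, ρ₁, ρ₂, hK, h21, h1, hH⟩ := h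
  obtain ⟨A, ρ, hA, hAt, hρ, hV⟩ := Sys.vout_of_hit hsI_gyp hQ hK h21 h1 hH
  exact ⟨wd, A, ρ, hA, hAt, hρ, hV⟩

/-- From the chain step and its inputs to the final theorem. -/
theorem main_of (hP : CPly) (hC : CCh) : ∃ C : ℝ, 0 < C ∧ ∀ n : ℕ, 1 ≤ n →
    (Pool.Agent.Hhelper14.Honeycomb.a n : ℝ) ≤
      C * (n : ℝ) ^ C * Pool.Agent.Hhelper14.Honeycomb.muL ^ n ∧
    (C * (n : ℝ) ^ C)⁻¹ ≤ Pool.Agent.Hhelper14.Honeycomb.P n := by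
  obtain ⟨K, ρ, hK, hρ, hPly⟩ := hP
  obtain ⟨C, D, h⟩ := hC K ρ hK hρ
  exact fin_poly ⟨C, D, fun n => h hsI hPly n⟩

end Pool.Agent.HEP
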